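import Pool.Agent.AT12.Stmts3
import Pool.Agent.Helper24_AT8.RGB

/-!
# Squad AT12, row CPY: automorphisms of `C_(ℓ ^ 2) × C_(ℓ ^ 2)`
-/

set_option autoImplicit false

namespace Pool.Agent.PP.T12.H15

open Pool.Agent.PP.T8 Pool.Agent.PP.T8.H24

/-- integral powers are natural powers in a finite group -/
theorem zpow_nat {V : Type} [Group V] [Finite V] (x : V) (i : ℤ) : ∃ n : ℕ, x ^ i = x ^ n := by
  have h : x ^ i ∈ Submonoid.powers x :=
    mem_powers_iff_mem_zpowers.2 ⟨i, rfl⟩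
  obtain ⟨n, hn⟩ := h
  exact ⟨n, hn.symm⟩

theorem cpy (hC : T8.CprStmt) : CpyStmt := by
  intro ℓ hp V _ _ hexp hcardV hxy E hE
  obtain ⟨u, hu⟩ := exists_order (V := V)
  rw [hexp] at hu
  by_cases hS : sub ℓ E u = ⊥
  · left
    refine ⟨u, hu, fun s hs v hv => ?_⟩
    have : s ∈ sub ℓ E u := ⟨hs, v, hv⟩
    rw [hS] at this
    exact Subgroup.mem_bot.1 this
  right
  have hℓ0 : 0 < ℓ := hp.out.pos
  have hexp' : Monoid.exponent V = ℓ ^ (1 + 1) := hexp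
  have hSE : ¬ ℓ ∣ Nat.card (sub ℓ E u) := fun h =>
    hE (h.trans (Subgroup.card_dvd_of_le (sub_le ℓ E u)))
  obtain ⟨⟨π, hπ1, hπ2, hπ3, hπ4⟩, hlast⟩ := hC ℓ V 2 hexp (sub ℓ E u) hSE
  obtain ⟨w₀, hw₀⟩ := hπ4 ℓ u fun s hs => hs.2
  have hππ : ∀ u, π (π u) = π u := fun u => hπ2 (π u) fun s hs => (hπ1 u s hs).1
  have hyne : (π u) ^ ℓ ^ 1 ≠ 1 := by
    have hy1 : (π u) ^ ℓ ^ 1 = u ^ ℓ ^ 1 := by
      rw [hw₀, mul_pow, ← pow_mul, ← pow_succ', pow_exp hexp', mul_one]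
    rw [hy1]
    intro h
    have h1 := orderOf_dvd_of_pow_eq_one h
    rw [hu, Nat.pow_dvd_pow_iff_le_right hp.out.one_lt] at h1
    omega
  have hu' : orderOf (π u) = ℓ ^ (1 + 1) := orderOf_eq_prime_pow hyne (pow_exp hexp' _)
  have hex : ∃ s ∈ sub ℓ E u, ∃ v : V, ∀ w, s v ≠ v * w ^ ℓ := by
    by_contra hcon
    push Not at hcon
    exact hS (hlast hcon)
  obtain ⟨s₁, hs₁, v, hv⟩ := hex
  have hwne : ∀ x : V, v * (π v)⁻¹ ≠ x ^ ℓ := by
    intro x hx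
    have h1 : v = π v * x ^ ℓ := by rw [← hx, mul_comm v, mul_inv_cancel_left]
    apply hv (x⁻¹ * s₁ x)
    have h2 : s₁ v = π v * (s₁ x) ^ ℓ := by
      conv_lhs => rw [h1]
      rw [map_mul, (hπ1 v s₁ hs₁).1, map_pow]
    rw [h2, mul_pow, ← mul_assoc]
    congr 1
    conv_rhs => rw [h1]
    rw [inv_pow, mul_inv_cancel_right]
  have hπk : π (v * (π v)⁻¹) = 1 := by
    rw [map_mul, map_inv, hππ, mul_inv_cancel]
  generalize v * (π v)⁻¹ = k at hwne hπk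
  -- independence
  have hind : ∀ (i j : ℤ) (v : V), (π u) ^ i * k ^ j = v ^ ℓ → (ℓ : ℤ) ∣ i ∧ (ℓ : ℤ) ∣ j := by
    intro i j v hij
    have h1 : (π u) ^ i = (π v) ^ ℓ := by
      have h2 := congrArg π hij
      rw [map_mul, map_zpow, map_zpow, hππ, hπk, one_zpow, mul_one, map_pow] at h2
      exact h2
    have h3 : (ℓ : ℤ) ∣ i := by
      have h4 : (π u) ^ (i * ((ℓ ^ 1 : ℕ) : ℤ)) = 1 := by
        rw [zpow_mul, h1, zpow_natCast, ← pow_mul, ← pow_succ', pow_exp hexp']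
      have h5 := orderOf_dvd_iff_zpow_eq_one.2 h4
      rw [hu', pow_succ'] at h5
      push_cast at h5
      exact Int.dvd_of_mul_dvd_mul_right (by have := hp.out.pos; positivity) h5
    refine ⟨h3, ?_⟩
    obtain ⟨d, rfl⟩ := h3
    by_contra hj
    have hcop : IsCoprime (ℓ : ℤ) j :=
      (Int.prime_iff_natAbs_prime.2 (by simpa using hp.out)).coprime_iff_not_dvd.2 hj
    obtain ⟨r, t, hrt⟩ := hcop
    apply hwne (k ^ r * (v * (π u) ^ (-d)) ^ t)
    have h6 : k ^ j = (v * (π u) ^ (-d)) ^ ℓ := by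
      rw [mul_pow, ← hij, ← zpow_natCast ((π u) ^ (-d)), ← zpow_mul, mul_comm (ℓ : ℤ) d,
        neg_mul, zpow_neg]
      rw [mul_comm _ (k ^ j), mul_inv_cancel_right]
    generalize v * (π u) ^ (-d) = w at h6 ⊢
    calc k = k ^ (r * ℓ + t * j) := by rw [hrt, zpow_one]
      _ = (k ^ r) ^ ℓ * (k ^ j) ^ t := by
          rw [zpow_add, zpow_mul, zpow_natCast, mul_comm t j, zpow_mul]
      _ = (k ^ r * w ^ t) ^ ℓ := by
          rw [h6, mul_pow, ← zpow_natCast (w ^ t), ← zpow_natCast w, ← zpow_mul, ← zpow_mul,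
            mul_comm t]
  have hgen := gen3 ℓ 2 hexp hxy (π u) k hind
  have hgenN : ∀ v : V, ∃ i j : ℕ, v = (π u) ^ i * k ^ j := by
    intro v
    obtain ⟨i, j, hij⟩ := hgen v
    obtain ⟨i', hi'⟩ := zpow_nat (π u) i
    obtain ⟨j', hj'⟩ := zpow_nat k j
    exact ⟨i', j', by rw [hij, hi', hj']⟩
  have hK : ∀ v : V, π v = 1 → ∃ j : ℕ, v = k ^ j := by
    intro v hv
    obtain ⟨i, j, hij⟩ := hgenN v
    refine ⟨j, ?_⟩
    have h1 := congrArg π hij
    rw [hv, map_mul, map_pow, map_pow, hππ, hπk, one_pow, mul_one] at h1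
    rw [hij, ← h1, one_mul]
  -- the order of `k`
  have hkdvd : orderOf k ∣ ℓ ^ 2 := orderOf_dvd_of_pow_eq_one (pow_exp hexp _)
  have hok : orderOf k = ℓ ^ 2 := by
    have hle : ℓ ^ 2 ≤ orderOf k := by
      have h1 : Nat.card V ≤ Nat.card (Fin (ℓ ^ 2) × Fin (orderOf k)) := by
        let f : Fin (ℓ ^ 2) × Fin (orderOf k) → V := fun t => (π u) ^ (t.1 : ℕ) * k ^ (t.2 : ℕ)
        refine Nat.card_le_card_of_surjective f ?_
        intro v
        obtain ⟨i, j, hij⟩ := hgenN v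
        refine ⟨(⟨i % ℓ ^ 2, Nat.mod_lt _ (by positivity)⟩,
          ⟨j % orderOf k, Nat.mod_lt _ (orderOf_pos k)⟩), ?_⟩
        show (π u) ^ (i % ℓ ^ 2) * k ^ (j % orderOf k) = v
        have e1 : (π u) ^ (i % ℓ ^ 2) = (π u) ^ i := by
          have := pow_mod_orderOf (π u) i
          rwa [hu'] at this
        rw [e1, pow_mod_orderOf, hij]
      rw [hcardV, Nat.card_prod, Nat.card_fin, Nat.card_fin] at h1
      have h2 : ℓ ^ 2 * ℓ ^ 2 ≤ ℓ ^ 2 * orderOf k := by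
        calc ℓ ^ 2 * ℓ ^ 2 = ℓ ^ 4 := by ring
          _ ≤ _ := h1
      exact Nat.le_of_mul_le_mul_left h2 (by positivity)
    exact le_antisymm (Nat.le_of_dvd (by positivity) hkdvd) hle
  -- the stabiliser
  have hstab : ∀ s ∈ E, ∀ v : V, s (π u) = π u * v ^ ℓ → s ∈ sub ℓ E u := by
    intro s hs v hv
    refine ⟨hs, w₀ * v * (s w₀)⁻¹, ?_⟩
    have h3 : u = π u * (w₀⁻¹) ^ ℓ := by rw [hw₀, inv_pow, mul_inv_cancel_right]
    have h4 : s u = π u * v ^ ℓ * ((s w₀)⁻¹) ^ ℓ := by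
      conv_lhs => rw [h3]
      rw [map_mul, hv, map_pow, map_inv]
    rw [h4, hw₀, mul_pow (w₀ * _), mul_pow w₀]
    simp only [mul_assoc]
  have hstab2 : ∀ s ∈ E, s (π u) = π u → s ∈ sub ℓ E u := fun s hs h =>
    hstab s hs 1 (by rw [h, one_pow, mul_one])
  have hact : ∀ s ∈ E, s (π u) = π u → ∃ μ : ℕ, s k = k ^ μ := by
    intro s hs h
    refine hK (s k) ?_
    rw [(hπ1 k s (hstab2 s hs h)).2, hπk]
  have hfree : ∀ s ∈ E, s (π u) = π u → ∀ μ : ℕ, s k = k ^ μ → (μ : ZMod ℓ) = 1 → s = 1 := by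
    intro s hs h μ hμ h1
    have h2 : (ℓ : ℤ) ∣ (μ : ℤ) - 1 := by
      rw [← ZMod.intCast_zmod_eq_zero_iff_dvd] 
      push_cast
      rw [h1, sub_self]
    obtain ⟨d, hd⟩ := h2
    refine triv2 hC ℓ V _ hexp E hE (π u) k hgen s hs ⟨1, by rw [h, one_pow, mul_one]⟩
      ⟨k ^ d, ?_⟩
    rw [hμ, ← zpow_natCast k μ, show (μ : ℤ) = 1 + d * ℓ by linarith, zpow_add, zpow_one, zpow_mul,
      zpow_natCast]
  -- the homomorphism
  let S' : Subgroup (MulAut V) :=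
    { carrier := {s | s ∈ E ∧ s (π u) = π u}
      one_mem' := ⟨E.one_mem, rfl⟩
      mul_mem' := by
        rintro s t ⟨hs, h1⟩ ⟨ht, h2⟩
        exact ⟨E.mul_mem hs ht, by rw [MulAut.mul_apply, h2, h1]⟩
      inv_mem' := by
        rintro s ⟨hs, h1⟩
        exact ⟨E.inv_mem hs, by rw [MulAut.inv_apply, MulEquiv.symm_apply_eq, h1]⟩ }
  have hmod : ∀ m n : ℕ, k ^ m = k ^ n → (m : ZMod ℓ) = (n : ZMod ℓ) := by
    intro m n h
    rw [pow_eq_pow_iff_modEq, hok] at h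
    rw [ZMod.natCast_eq_natCast_iff]
    exact Nat.ModEq.of_dvd (dvd_pow_self ℓ two_ne_zero) h
  choose μ hμ using fun s : S' => hact s.1 s.2.1 s.2.2
  let φ : S' →* ZMod ℓ :=
    { toFun := fun s => (μ s : ZMod ℓ)
      map_one' := by
        have h := hμ 1
        have h2 : k ^ μ 1 = k ^ 1 := by
          rw [← h, pow_one]
          rfl
        rw [hmod _ _ h2, Nat.cast_one]
      map_mul' := by
        intro s t
        have h : k ^ μ (s * t) = k ^ (μ s * μ t) := by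
          rw [← hμ, pow_mul, ← hμ s, ← map_pow, ← hμ t]
          rfl
        rw [hmod _ _ h, Nat.cast_mul] }
  have hφ : Function.Injective φ.toHomUnits := by
    rw [injective_iff_map_eq_one]
    intro s hs
    have h1 : φ s = 1 := by
      have := congrArg (fun x : (ZMod ℓ)ˣ => (x : ZMod ℓ)) hs
      simpa using this
    exact Subtype.ext (hfree s.1 s.2.1 s.2.2 (μ s) (hμ s) h1)
  refine ⟨π u, k, hu', hok, hgenN, ?_, ?_, hact, ?_, ?_, ?_, ?_⟩
  · intro i i' j j' h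
    have h1 := congrArg π h
    rw [map_mul, map_mul, map_pow, map_pow, map_pow, map_pow, hππ, hπk, one_pow, one_pow, mul_one,
      mul_one] at h1
    have h2 : k ^ j = k ^ j' := by
      rw [h1] at h
      exact mul_left_cancel h
    rw [pow_eq_pow_iff_modEq, hu'] at h1
    rw [pow_eq_pow_iff_modEq, hok] at h2
    exact ⟨h1, h2⟩
  · intro s hs v hv
    exact (hπ1 u s (hstab s hs v hv)).1
  · intro s hs h n hn hsn
    obtain ⟨m, hm⟩ := hact s hs h
    refine hfree s hs h m hm ?_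
    have h1 : k ^ (m * n) = k ^ n := by
      rw [pow_mul, ← hm, ← map_pow, hsn]
    rw [pow_eq_pow_iff_modEq, hok] at h1
    have h2 : ((ℓ ^ 2 : ℕ) : ℤ) ∣ ((m : ℤ) - 1) * n := by
      have h3 := (Nat.modEq_iff_dvd.1 h1.symm)
      have h4 : (((m * n : ℕ) : ℤ)) - (n : ℤ) = ((m : ℤ) - 1) * n := by
        push_cast
        ring
      rw [← h4]
      exact h3
    by_contra hne
    apply hn
    have h3 : ¬ (ℓ : ℤ) ∣ (m : ℤ) - 1 := by
      intro h4
      apply hne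
      rw [← ZMod.intCast_zmod_eq_zero_iff_dvd] at h4
      push_cast at h4
      exact sub_eq_zero.1 h4
    have hcop : IsCoprime (((ℓ ^ 2 : ℕ) : ℤ)) ((m : ℤ) - 1) := by
      have h4 : IsCoprime (ℓ : ℤ) ((m : ℤ) - 1) :=
        (Int.prime_iff_natAbs_prime.2 (by simpa using hp.out)).coprime_iff_not_dvd.2 h3
      push_cast
      exact h4.pow_left
    exact_mod_cast hcop.dvd_of_dvd_mul_left h2
  · obtain ⟨⟨s, hs⟩, hne⟩ := Subgroup.ne_bot_iff_exists_ne_one.1 hS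
    have hne' : s ≠ 1 := fun h' => hne (Subtype.ext h')
    exact ⟨s, hs.1, hne', (hπ1 u _ hs).1⟩
  · have h1 : Nat.card S' ∣ Nat.card (ZMod ℓ)ˣ := Subgroup.card_dvd_of_injective _ hφ
    have h2 : Nat.card (ZMod ℓ)ˣ = ℓ - 1 := by
      rw [Nat.card_eq_fintype_card, ZMod.card_units]
    rw [h2] at h1
    exact h1
  · have : IsCyclic S' := isCyclic_of_injective _ hφ
    obtain ⟨g, hg⟩ := IsCyclic.exists_generator (α := S')
    refine ⟨g.1, g.2.1, g.2.2, ?_⟩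
    intro s hs h
    have h1 := hg (⟨s, hs, h⟩ : S')⁻¹
    rw [← mem_powers_iff_mem_zpowers] at h1
    obtain ⟨n, hn⟩ := h1
    refine ⟨n, ?_⟩
    have h2 := congrArg (fun x : S' => (x : MulAut V)) hn
    simp only [Subgroup.coe_pow, Subgroup.coe_inv] at h2
    rw [h2, inv_mul_cancel]

end Pool.Agent.PP.T12.H15
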